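import Pool.Agent.K7.H21.Rep.LevyTile

set_option autoImplicit false

/-!
# The least `n` for which there is an `n`-reptile with a hole is `2`

The dragon of Lévy is the attractor of `z ↦ z (1 + i) / 2` and
`z ↦ (1 + i) / 2 + z (1 - i) / 2`.  Its copies at the Gaussian integers, rotated by multiples of a
right angle, cover the plane, so that it has interior points (Baire), and then it is the closure of
its interior and its two pieces have disjoint interiors (they have half the area of the dragon).
It contains the boundary of the octagon with centre `1/2 + 5i/8` and the vertices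
`1/2 ± 1/8 + (5/8 ± 1/4) i`, `1/2 ± 1/4 + (5/8 ± 1/8) i`, but not the centre of this octagon.
-/

namespace Pool.Agent.Results.MP_25e24e_co.LeastIsTwo

open Pool.Agent.K7.H21.Rep

/-- The least `n` such that some `n`-reptile in the plane has a hole is `2`. -/
theorem result : IsLeast {n : ℕ | ∃ X : Set ℂ, IsNReptile n X ∧ HasHole X} 2 :=
  ⟨⟨Levy.L, Levy.L_reptile, Levy.hasHole⟩, fun _ ⟨_, h, _⟩ => h.1⟩

end Pool.Agent.Results.MP_25e24e_co.LeastIsTwo
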